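import Mathlib
import Pool.Agent.H56.SphereFacet

set_option autoImplicit false

open scoped unitInterval Topology

namespace Pool.Agent.Results.MP_2b5625_co.OddSharp

/-- The squares of the triangular board of size `n`: pairs (column, row) with column `≤` row. -/
abbrev Square (n : ℕ) : Type := {s : Fin n × Fin n // s.1 ≤ s.2}

/-- Non-attacking rook placements: no two distinct squares share a column or a row. -/
def IsPlacement {n : ℕ} (P : Finset (Square n)) : Prop :=
  ∀ s ∈ P, ∀ t ∈ P, s ≠ t → s.1.1 ≠ t.1.1 ∧ s.1.2 ≠ t.1.2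

/-- The geometric realization of the simplicial complex on the finite vertex set `V` with the
given family of faces: nonnegative functions on `V` with sum `1` whose support is a face
(a subspace of `V → ℝ`). -/
def Realization {V : Type} [Fintype V] (face : Finset V → Prop) : Set (V → ℝ) :=
  {f | (∀ v, 0 ≤ f v) ∧ ∑ v, f v = 1 ∧ ∃ F : Finset V, face F ∧ ∀ v, v ∈ F ↔ f v ≠ 0}

/-- The (geometric realization of the) Stirling complex `St(n)`. -/
def St (n : ℕ) : Set (Square n → ℝ) := Realization (IsPlacement (n := n))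

/-- `X` is `k`-connected: nonempty, and `π_i` vanishes for all `0 ≤ i ≤ k`. -/
def KConnected (k : ℕ) (X : Type) [TopologicalSpace X] : Prop :=
  Nonempty X ∧ ∀ i : ℕ, i ≤ k → ∀ x : X, Subsingleton (HomotopyGroup.Pi i X x)

/-- the square in column `i`, row `m + i` -/
def sa (m : ℕ) (i : Fin (m + 1)) : Square (2 * m + 1) :=
  ⟨(⟨i, by omega⟩, ⟨m + i, by omega⟩), by simp⟩

section
variable (m : ℕ) (hm : 1 ≤ m)

/-- the partner square -/
def sb (i : Fin (m + 1)) : Square (2 * m + 1) :=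
  if h : (i : ℕ) < m then ⟨(⟨i, by omega⟩, ⟨i, by omega⟩), le_refl _⟩
  else ⟨(⟨m + 1, by omega⟩, ⟨2 * m, by omega⟩), by
    show (⟨m + 1, _⟩ : Fin (2 * m + 1)) ≤ ⟨2 * m, _⟩
    rw [Fin.mk_le_mk]; omega⟩

lemma sa_col (i : Fin (m + 1)) : ((sa m i).1.1 : ℕ) = i := rfl
lemma sa_row (i : Fin (m + 1)) : ((sa m i).1.2 : ℕ) = m + i := rfl
lemma sb_col (i : Fin (m + 1)) : ((sb m hm i).1.1 : ℕ) = if (i : ℕ) < m then (i : ℕ) else m + 1 := by
  unfold sb; split_ifs <;> rfl
lemma sb_row (i : Fin (m + 1)) : ((sb m hm i).1.2 : ℕ) = if (i : ℕ) < m then (i : ℕ) else 2 * m := by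
  unfold sb; split_ifs <;> rfl

lemma sa_inj : Function.Injective (sa m) := by
  intro i j h
  have := congrArg (fun s : Square (2 * m + 1) => (s.1.1 : ℕ)) h
  simp only [sa_col] at this
  exact Fin.ext this

lemma sa_ne_sb (i j : Fin (m + 1)) : sa m i ≠ sb m hm j := by
  intro h
  have h1 := congrArg (fun s : Square (2 * m + 1) => (s.1.1 : ℕ)) h
  have h2 := congrArg (fun s : Square (2 * m + 1) => (s.1.2 : ℕ)) h
  simp only [sa_col, sa_row, sb_col, sb_row] at h1 h2
  have := i.2
  split_ifs at h1 h2 <;> omega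

/-- the embedded cross-polytope -/
noncomputable def emb (z : Fin (m + 1) → ℝ) : Square (2 * m + 1) → ℝ := fun s =>
  ∑ i, ((if s = sa m i then max (z i) 0 else 0) + (if s = sb m hm i then max (-z i) 0 else 0))

lemma emb_sa (z : Fin (m + 1) → ℝ) (i : Fin (m + 1)) : emb m hm z (sa m i) = max (z i) 0 := by
  unfold emb
  rw [Finset.sum_eq_single i]
  · rw [if_pos rfl, if_neg (sa_ne_sb m hm i i), add_zero]
  · intro j _ hj
    rw [if_neg (fun h => hj (sa_inj m h).symm), if_neg (sa_ne_sb m hm i j), add_zero]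
  · intro h; exact absurd (Finset.mem_univ i) h

lemma emb_nonneg (z : Fin (m + 1) → ℝ) (s) : 0 ≤ emb m hm z s := by
  unfold emb
  refine Finset.sum_nonneg (fun i _ => add_nonneg ?_ ?_) <;> split_ifs <;>
    first | exact le_max_right _ _ | exact le_refl _

lemma emb_sum (z : Fin (m + 1) → ℝ) : ∑ s, emb m hm z s = ∑ i, |z i| := by
  unfold emb
  rw [Finset.sum_comm]
  refine Finset.sum_congr rfl (fun i _ => ?_)
  rw [Finset.sum_add_distrib, Finset.sum_ite_eq' , Finset.sum_ite_eq']
  simp only [Finset.mem_univ, if_true]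
  rcases le_total 0 (z i) with h | h
  · rw [max_eq_left h, max_eq_right (by linarith), abs_of_nonneg h, add_zero]
  · rw [max_eq_right h, max_eq_left (by linarith), abs_of_nonpos h, zero_add]

lemma emb_ne (z : Fin (m + 1) → ℝ) (s) (h : emb m hm z s ≠ 0) :
    ∃ i, (s = sa m i ∧ 0 < z i) ∨ (s = sb m hm i ∧ z i < 0) := by
  unfold emb at h
  obtain ⟨i, -, hi⟩ := Finset.exists_ne_zero_of_sum_ne_zero h
  refine ⟨i, ?_⟩
  by_contra hcon
  push Not at hcon
  obtain ⟨h1, h2⟩ := hcon
  apply hi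
  have e1 : (if s = sa m i then max (z i) 0 else 0) = 0 := by
    split_ifs with h
    · exact max_eq_right (h1 h)
    · rfl
  have e2 : (if s = sb m hm i then max (-z i) 0 else 0) = 0 := by
    split_ifs with h
    · exact max_eq_right (by linarith [h2 h])
    · rfl
  rw [e1, e2, add_zero]

lemma emb_mem (z : Fin (m + 1) → ℝ) (hz : ∑ i, |z i| = 1) : emb m hm z ∈ St (2 * m + 1) := by
  classical
  refine ⟨emb_nonneg m hm z, by rw [emb_sum, hz], Finset.univ.filter (fun s => emb m hm z s ≠ 0), ?_,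
    fun s => by simp⟩
  intro s hs t ht hst
  rw [Finset.mem_filter] at hs ht
  obtain ⟨i, hi⟩ := emb_ne m hm z s hs.2
  obtain ⟨j, hj⟩ := emb_ne m hm z t ht.2
  have hij : i ≠ j := by
    rintro rfl
    rcases hi with ⟨rfl, h1⟩ | ⟨rfl, h1⟩ <;> rcases hj with ⟨rfl, h2⟩ | ⟨rfl, h2⟩
    · exact hst rfl
    · linarith
    · linarith
    · exact hst rfl
  have hij' : (i : ℕ) ≠ j := fun h => hij (Fin.ext h)
  have hi2 := i.2
  have hj2 := j.2
  constructor
  · intro h
    have h' : (s.1.1 : ℕ) = t.1.1 := by rw [h]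
    rcases hi with ⟨rfl, -⟩ | ⟨rfl, -⟩ <;> rcases hj with ⟨rfl, -⟩ | ⟨rfl, -⟩ <;>
      simp only [sa_col, sb_col] at h' <;> first | omega | (split_ifs at h' <;> omega)
  · intro h
    have h' : (s.1.2 : ℕ) = t.1.2 := by rw [h]
    rcases hi with ⟨rfl, -⟩ | ⟨rfl, -⟩ <;> rcases hj with ⟨rfl, -⟩ | ⟨rfl, -⟩ <;>
      simp only [sa_row, sb_row] at h' <;> first | omega | (split_ifs at h' <;> omega)

lemma continuous_emb : Continuous (emb m hm) := by
  refine continuous_pi fun s => ?_
  unfold emb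
  refine continuous_finsetSum _ fun i _ => Continuous.add ?_ ?_
  · split_ifs
    · exact (continuous_apply i).max continuous_const
    · exact continuous_const
  · split_ifs
    · exact (continuous_apply i).neg.max continuous_const
    · exact continuous_const

lemma maximal (f : Square (2 * m + 1) → ℝ) (hf : f ∈ St (2 * m + 1))
    (hpos : ∀ i, 0 < f (sa m i)) : ∑ i, f (sa m i) = 1 := by
  classical
  obtain ⟨h0, h1, F, hF, hFs⟩ := hf
  rw [← h1]
  have himg : ∑ i, f (sa m i) = ∑ s ∈ Finset.univ.image (sa m), f s := by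
    rw [Finset.sum_image (fun i _ j _ h => sa_inj m h)]
  rw [himg]
  apply Finset.sum_subset (Finset.subset_univ _)
  intro s _ hs
  by_contra hne
  have hsF : s ∈ F := (hFs s).mpr hne
  have hs' : ∀ i, s ≠ sa m i := by
    intro i h
    exact hs (Finset.mem_image.mpr ⟨i, Finset.mem_univ i, h.symm⟩)
  have hcol : m + 1 ≤ (s.1.1 : ℕ) := by
    by_contra hlt
    push Not at hlt
    have hi : sa m ⟨s.1.1, hlt⟩ ∈ F := (hFs _).mpr (hpos _).ne'
    have := (hF s hsF _ hi (hs' _)).1
    apply this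
    exact Fin.ext rfl
  have hrow : (s.1.2 : ℕ) < m := by
    by_contra hge
    push Not at hge
    have hlt : (s.1.2 : ℕ) - m < m + 1 := by
      have := s.1.2.2
      omega
    have hi : sa m ⟨(s.1.2 : ℕ) - m, hlt⟩ ∈ F := (hFs _).mpr (hpos _).ne'
    have := (hF s hsF _ hi (hs' _)).2
    apply this
    apply Fin.ext
    rw [sa_row]
    show (s.1.2 : ℕ) = m + ((s.1.2 : ℕ) - m)
    omega
  have hle : (s.1.1 : ℕ) ≤ s.1.2 := s.2
  omega

end

/-- For every odd `n ≥ 3` the Stirling complex `St(n)` is not `(n-1)/2`-connected. -/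
theorem result : ∀ n : ℕ, Odd n → 3 ≤ n → ¬ KConnected ((n - 1) / 2) (St n) := by
  rintro n ⟨m, rfl⟩ h3 ⟨-, hcon⟩
  have hm : 1 ≤ m := by omega
  have hmm : (2 * m + 1 - 1) / 2 = m := by omega
  rw [hmm] at hcon
  refine Pool.Agent.H56.not_subsingleton_pi m (St (2 * m + 1))
    (fun f i => f.1 (sa m i)) ?_ ?_ (fun z => ⟨emb m hm z.1, emb_mem m hm z.1 z.2⟩) ?_ ?_
    (hcon m le_rfl _)
  · exact continuous_pi fun i => (continuous_apply (sa m i)).comp continuous_subtype_val
  · intro f hpos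
    exact maximal m f.1 f.2 hpos
  · exact Continuous.subtype_mk ((continuous_emb m hm).comp continuous_subtype_val) _
  · intro z i
    exact emb_sa m hm z.1 i

end Pool.Agent.Results.MP_2b5625_co.OddSharp
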